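import Pool.Agent.BED.Stmts
import Pool.Agent.Helper70_BE01.All

/-! # Squad BED (MP_be01ff_an), row DSC: the disc -/

set_option autoImplicit false

namespace Pool.Agent.BED.H27

open Set Filter Topology MeasureTheory
open scoped InnerProductSpace ENNReal
open Pool.Agent.BE01
open Pool.Agent.BEO (BB)
open Pool.Agent.BED

noncomputable section

theorem dsc_dom (R : ℝ) (hR : 0 < R) : Dom (BB 2 R) :=
  ⟨Metric.isOpen_ball, Metric.isBounded_ball, ⟨0, Metric.mem_ball_self hR⟩⟩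

theorem dsc_mem (R : ℝ) (g : En 2 ≃ₗᵢ[ℝ] En 2) (x : En 2) : g x ∈ BB 2 R ↔ x ∈ BB 2 R := by
  show g x ∈ Metric.ball (0 : En 2) R ↔ x ∈ Metric.ball (0 : En 2) R
  rw [mem_ball_zero_iff, mem_ball_zero_iff, g.norm_map]

theorem dsc_mp (R : ℝ) (g : En 2 ≃ₗᵢ[ℝ] En 2) :
    MeasurePreserving g (mu (BB 2 R)) (mu (BB 2 R)) := by
  have h1 : MeasurePreserving g volume volume := g.measurePreserving
  have hm : MeasurableSet (BB 2 R) := measurableSet_ball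
  have h2 := h1.restrict_preimage hm
  have h3 : g ⁻¹' (BB 2 R) = BB 2 R := by
    ext x
    exact dsc_mem R g x
  rw [h3] at h2
  exact h2

theorem dsc_rad (R : ℝ) (u φ : Lp ℝ 2 (mu (BB 2 R))) (c : ℝ) (hu : Rad R u) (hφ : Rad R φ) :
    Rad R (u - c • φ) := by
  intro g hg
  have h1 : (u - c • φ : Lp ℝ 2 (mu (BB 2 R))) =ᵐ[mu (BB 2 R)] fun x => u x - c * φ x := by
    filter_upwards [Lp.coeFn_sub u (c • φ), Lp.coeFn_smul c φ] with x h1 h2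
    rw [h1, Pi.sub_apply, h2, Pi.smul_apply, smul_eq_mul]
  have h2 := (dsc_mp R g).quasiMeasurePreserving.ae_eq_comp h1
  filter_upwards [h1, h2, hu g hg, hφ g hg] with x e1 e2 e3 e4
  have e2' : (u - c • φ : Lp ℝ 2 (mu (BB 2 R))) (g x) = u (g x) - c * φ (g x) := e2
  have e3' : u (g x) = u x := e3
  have e4' : φ (g x) = φ x := e4
  rw [e2', e1, e3', e4']

theorem dsc_int (R : ℝ) (v φ : Lp ℝ 2 (mu (BB 2 R))) :
    ∫ y, v y * φ y ∂(mu (BB 2 R)) = ⟪φ, v⟫_ℝ := by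
  rw [L2.inner_def]
  refine integral_congr_ae (Filter.Eventually.of_forall fun y => ?_)
  simp

/-- row DSC -/
theorem dsc (fn3 : Fn3Stmt) (jze : JzeStmt) (jnu : JnuStmt) (cpv : CpvStmt) (ord : OrdStmt)
    (spd : SpdStmt) (phr : PhrStmt) : DscStmt := by
  intro R a p hR ha hp1 hp3
  obtain ⟨x0, hx1, hx2, hx3, hx4, hx5⟩ := jze
  have hx0 : 0 < x0 := by linarith
  obtain ⟨φ, hφ, hφ0, hφr, hφe⟩ := phr R x0 hR hx0 hx3
  obtain ⟨hb, c, hc, hi2, hip⟩ := ord R x0 φ hR (by linarith) (by linarith) hx5 hφ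
  obtain ⟨c1, c2, c3⟩ := cpv
  have hDom := dsc_dom R hR
  obtain ⟨X, i1, i2, i3, A, W, Z, -, -, -, -, -, -, -, -, hS⟩ :=
    Pool.Agent.Helper70BE01All.wvc2 2 (BB 2 R) (Or.inl rfl) hDom
  have hsimple : ∀ u, Inv (BB 2 R) Set.univ u → IsEig (BB 2 R) ((x0 / R) ^ 2) u →
      ∃ c : ℝ, u = c • φ := by
    intro u hu hue
    refine ⟨⟪φ, u⟫_ℝ / ⟪φ, φ⟫_ℝ, ?_⟩
    have hpp : ⟪φ, φ⟫_ℝ ≠ 0 := inner_self_ne_zero.2 hφ0
    have hrad := dsc_rad R u φ (⟪φ, u⟫_ℝ / ⟪φ, φ⟫_ℝ) hu hφr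
    have heig : IsEig (BB 2 R) ((x0 / R) ^ 2) (u - (⟪φ, u⟫_ℝ / ⟪φ, φ⟫_ℝ) • φ) := by
      rw [hS] at hue hφe ⊢
      rw [map_sub, map_smul, smul_sub, smul_comm, ← hφe, ← hue]
    have hint : ∫ y, (u - (⟪φ, u⟫_ℝ / ⟪φ, φ⟫_ℝ) • φ : Lp ℝ 2 (mu (BB 2 R))) y * φ y
        ∂(mu (BB 2 R)) = 0 := by
      rw [dsc_int, inner_sub_right, inner_smul_right, div_mul_cancel₀ _ hpp, sub_self]
    have h0 := (spd R x0 _ hR hx0 hrad heig).2 hx4 φ hφ hint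
    exact sub_eq_zero.1 h0
  have hnon : ∀ N : ℕ, 1 + 2 * p * N ≤ 97 → ∀ n : ℕ, Odd n → 3 ≤ n → n ≤ 1 + 2 * p * N →
      ∀ u, Inv (BB 2 R) Set.univ u → IsEig (BB 2 R) ((n : ℝ) ^ 2 * (x0 / R) ^ 2) u → u = 0 := by
    intro N hN n hn h3 hle u hu hue
    have hn0 : (0 : ℝ) < n := by
      have : 0 < n := by omega
      exact_mod_cast this
    refine (spd R (n * x0) u hR (mul_pos hn0 hx0) hu ?_).1 (jnu n x0 hn h3 (hle.trans hN) hx1 hx2)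
    have h6 : (n * x0 / R) ^ 2 = (n : ℝ) ^ 2 * (x0 / R) ^ 2 := by ring
    rw [h6]
    exact hue
  have hmain : ∀ N : ℕ, 1 + 2 * p * N ≤ 97 →
      (2 * (p : ℝ) + 1) * (2 / 5 * c) < N * (p * cp p * (c / (2 * p + 3))) → 0 ≤ cp p →
      Rat (BB 2 R) a p := by
    intro N hN hlt hcp
    refine fn3 2 (BB 2 R) Set.univ p N a ((x0 / R) ^ 2) 1 φ (Or.inl rfl) hDom
      (fun g _ x => dsc_mem R g x) hp1 ha hφ0 hφr hφe hsimple hb ?_ (hnon N hN)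
    rw [one_pow, mul_one]
    have hp0 : (0 : ℝ) ≤ p := Nat.cast_nonneg p
    have hN0 : (0 : ℝ) ≤ N := Nat.cast_nonneg N
    calc (2 * (p : ℝ) + 1) * ∫ x, φ x ^ 2 ∂(mu (BB 2 R)) ≤ (2 * (p : ℝ) + 1) * (2 / 5 * c) :=
          mul_le_mul_of_nonneg_left hi2 (by positivity)
      _ < N * (p * cp p * (c / (2 * p + 3))) := hlt
      _ ≤ N * (p * cp p * ∫ x, φ x ^ (2 * p + 2) ∂(mu (BB 2 R))) :=
          mul_le_mul_of_nonneg_left
            (mul_le_mul_of_nonneg_left (hip p) (mul_nonneg hp0 hcp)) hN0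
  interval_cases p
  · refine hmain 9 (by norm_num) ?_ (by rw [c1]; norm_num)
    rw [c1]
    push_cast
    linarith
  · refine hmain 12 (by norm_num) ?_ (by rw [c2]; norm_num)
    rw [c2]
    push_cast
    linarith
  · refine hmain 16 (by norm_num) ?_ (by rw [c3]; norm_num)
    rw [c3]
    push_cast
    linarith

end

end Pool.Agent.BED.H27
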